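import Mathlib

/-!
Straight-line programs: closure under substitutions, linear combinations, scaling of the
variables.
-/

set_option autoImplicit false

namespace Pool.Agent.H181R3.VP

open Finset MvPolynomial

/-- `f` is computed by an arithmetic circuit with `s` gates. -/
def Computes {σ : Type} (s : ℕ) (f : MvPolynomial σ ℂ) : Prop :=
  ∃ g : Fin s → MvPolynomial σ ℂ,
    (∀ i : Fin s, (∃ j : σ, g i = X j) ∨ (∃ a : ℂ, g i = C a) ∨
      (∃ a b : Fin s, a < i ∧ b < i ∧ (g i = g a + g b ∨ g i = g a * g b))) ∧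
    ∃ i : Fin s, g i = f

/-- Straight-line programs as lists, the last step first. -/
inductive Slp {σ : Type} : List (MvPolynomial σ ℂ) → Prop
  | nil : Slp []
  | cons (x : MvPolynomial σ ℂ) (l : List (MvPolynomial σ ℂ)) :
      Slp l → ((∃ j, x = X j) ∨ (∃ a, x = C a) ∨ ∃ a ∈ l, ∃ b ∈ l, x = a + b ∨ x = a * b) →
      Slp (x :: l)

/-- `f` occurs in a straight-line program of length at most `s`. -/
def Easy {σ : Type} (s : ℕ) (f : MvPolynomial σ ℂ) : Prop := ∃ l, Slp l ∧ f ∈ l ∧ l.length ≤ s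

variable {σ τ : Type}

lemma Slp.of_fin {s : ℕ} (g : Fin s → MvPolynomial σ ℂ)
    (hg : ∀ i : Fin s, (∃ j : σ, g i = X j) ∨ (∃ a : ℂ, g i = C a) ∨
      (∃ a b : Fin s, a < i ∧ b < i ∧ (g i = g a + g b ∨ g i = g a * g b))) :
    Slp (List.ofFn g).reverse := by
  induction s with
  | zero => simpa using Slp.nil
  | succ s ih =>
    rw [List.ofFn_succ', List.concat_eq_append, List.reverse_append]
    simp only [List.reverse_singleton, List.singleton_append]
    refine Slp.cons _ _ (ih (fun i => g i.castSucc) ?_) ?_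
    · intro i
      rcases hg i.castSucc with h | h | ⟨a, b, ha, hb, h⟩
      · exact Or.inl h
      · exact Or.inr (Or.inl h)
      · refine Or.inr (Or.inr ⟨⟨a, ?_⟩, ⟨b, ?_⟩, ?_, ?_, h⟩)
        · have : (a : ℕ) < i := ha
          omega
        · have : (b : ℕ) < i := hb
          omega
        · exact ha
        · exact hb
    · rcases hg (Fin.last s) with h | h | ⟨a, b, ha, hb, h⟩
      · exact Or.inl h
      · exact Or.inr (Or.inl h)
      · refine Or.inr (Or.inr ⟨g a, ?_, g b, ?_, h⟩)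
        · rw [List.mem_reverse, List.mem_ofFn]
          exact ⟨⟨a, ha⟩, rfl⟩
        · rw [List.mem_reverse, List.mem_ofFn]
          exact ⟨⟨b, hb⟩, rfl⟩

lemma Computes.easy {s : ℕ} {f : MvPolynomial σ ℂ} (h : Computes s f) : Easy s f := by
  obtain ⟨g, hg, i, hi⟩ := h
  refine ⟨_, Slp.of_fin g hg, ?_, by simp⟩
  rw [List.mem_reverse, List.mem_ofFn]
  exact ⟨i, hi⟩

lemma Slp.to_fin {l : List (MvPolynomial σ ℂ)} (h : Slp l) :
    ∃ g : Fin l.length → MvPolynomial σ ℂ,
      (∀ i, (∃ j : σ, g i = X j) ∨ (∃ a : ℂ, g i = C a) ∨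
        (∃ a b, a < i ∧ b < i ∧ (g i = g a + g b ∨ g i = g a * g b))) ∧
      ∀ x ∈ l, ∃ i, g i = x := by
  induction h with
  | nil => exact ⟨fun i => 0, fun i => i.elim0, by simp⟩
  | cons x l _ hx ih =>
    obtain ⟨g, hg, hmem⟩ := ih
    refine ⟨Fin.snoc (α := fun _ => MvPolynomial σ ℂ) g x, ?_, ?_⟩
    · intro i
      refine Fin.lastCases ?_ (fun i => ?_) i
      · simp only [Fin.snoc_last]
        rcases hx with h | h | ⟨a, ha, b, hb, h⟩
        · exact Or.inl h
        · exact Or.inr (Or.inl h)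
        · obtain ⟨i, hi⟩ := hmem a ha
          obtain ⟨j, hj⟩ := hmem b hb
          refine Or.inr (Or.inr ⟨i.castSucc, j.castSucc, Fin.castSucc_lt_last _,
            Fin.castSucc_lt_last _, ?_⟩)
          simp only [Fin.snoc_castSucc]
          rw [hi, hj]
          exact h
      · simp only [Fin.snoc_castSucc]
        rcases hg i with h | h | ⟨a, b, ha, hb, h⟩
        · exact Or.inl h
        · exact Or.inr (Or.inl h)
        · refine Or.inr (Or.inr ⟨a.castSucc, b.castSucc, by simpa using ha, by simpa using hb, ?_⟩)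
          simp only [Fin.snoc_castSucc]
          exact h
    · intro y hy
      rcases List.mem_cons.mp hy with rfl | hy
      · exact ⟨Fin.last _, by simp⟩
      · obtain ⟨i, hi⟩ := hmem y hy
        exact ⟨i.castSucc, by simpa using hi⟩

lemma Easy.computes {s : ℕ} {f : MvPolynomial σ ℂ} (h : Easy s f) :
    ∃ s' ≤ s, Computes s' f := by
  obtain ⟨l, hl, hf, hs⟩ := h
  obtain ⟨g, hg, hmem⟩ := hl.to_fin
  exact ⟨l.length, hs, g, hg, hmem f hf⟩

lemma Slp.append {l₁ l₂ : List (MvPolynomial σ ℂ)} (h₁ : Slp l₁) (h₂ : Slp l₂) :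
    Slp (l₁ ++ l₂) := by
  induction h₁ with
  | nil => simpa using h₂
  | cons x l _ hx ih =>
    refine Slp.cons _ _ ih ?_
    rcases hx with h | h | ⟨a, ha, b, hb, h⟩
    · exact Or.inl h
    · exact Or.inr (Or.inl h)
    · exact Or.inr (Or.inr ⟨a, List.mem_append_left _ ha, b, List.mem_append_left _ hb, h⟩)

/-- Substitution of products of two earlier polynomials for the variables. -/
lemma Slp.map (φ : MvPolynomial σ ℂ →ₐ[ℂ] MvPolynomial τ ℂ) {l₀ : List (MvPolynomial τ ℂ)}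
    (h₀ : Slp l₀)
    (hφ : ∀ j, (∃ k, φ (X j) = X k) ∨ (∃ a, φ (X j) = C a) ∨
      ∃ a ∈ l₀, ∃ b ∈ l₀, φ (X j) = a + b ∨ φ (X j) = a * b)
    {l : List (MvPolynomial σ ℂ)} (h : Slp l) : Slp (l.map φ ++ l₀) := by
  induction h with
  | nil => simpa using h₀
  | cons x l _ hx ih =>
    rw [List.map_cons, List.cons_append]
    refine Slp.cons _ _ ih ?_
    rcases hx with ⟨j, rfl⟩ | ⟨a, rfl⟩ | ⟨a, ha, b, hb, h⟩
    · rcases hφ j with h | h | ⟨a, ha, b, hb, h⟩
      · exact Or.inl h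
      · exact Or.inr (Or.inl h)
      · exact Or.inr (Or.inr ⟨a, List.mem_append_right _ ha, b, List.mem_append_right _ hb, h⟩)
    · refine Or.inr (Or.inl ⟨a, ?_⟩)
      rw [← MvPolynomial.algebraMap_eq, AlgHom.commutes, MvPolynomial.algebraMap_eq]
    · refine Or.inr (Or.inr ⟨φ a, List.mem_append_left _ (List.mem_map_of_mem ha), φ b,
        List.mem_append_left _ (List.mem_map_of_mem hb), ?_⟩)
      rcases h with rfl | rfl
      · exact Or.inl (map_add _ _ _)
      · exact Or.inr (map_mul _ _ _)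

/-- Projections do not increase the size. -/
lemma Easy.proj (φ : MvPolynomial σ ℂ →ₐ[ℂ] MvPolynomial τ ℂ)
    (hφ : ∀ j, (∃ k, φ (X j) = X k) ∨ (∃ a, φ (X j) = C a)) {s : ℕ} {f : MvPolynomial σ ℂ}
    (h : Easy s f) : Easy s (φ f) := by
  obtain ⟨l, hl, hf, hs⟩ := h
  refine ⟨l.map φ ++ [], Slp.map φ Slp.nil (fun j => ?_) hl, ?_, by simpa using hs⟩
  · rcases hφ j with h | h
    · exact Or.inl h
    · exact Or.inr (Or.inl h)
  · simpa using ⟨f, hf, rfl⟩

/-- Scaling of the variables. -/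
noncomputable def scale (t : ℂ) : MvPolynomial σ ℂ →ₐ[ℂ] MvPolynomial σ ℂ :=
  aeval fun j => C t * X j

lemma Easy.scale [Fintype σ] (t : ℂ) {s : ℕ} {f : MvPolynomial σ ℂ} (h : Easy s f) :
    Easy (s + (Fintype.card σ + 1)) (scale t f) := by
  obtain ⟨l, hl, hf, hs⟩ := h
  have h1 : ∀ l' : List σ, Slp (l'.map (X : σ → MvPolynomial σ ℂ)) := by
    intro l'
    induction l' with
    | nil => exact Slp.nil
    | cons j l' ih => exact Slp.cons _ _ ih (Or.inl ⟨j, rfl⟩)
  have h0 : Slp (C t :: ((univ : Finset σ).toList.map (X : σ → MvPolynomial σ ℂ))) :=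
    Slp.cons _ _ (h1 _) (Or.inr (Or.inl ⟨t, rfl⟩))
  refine ⟨_, Slp.map (VP.scale t) h0 (fun j => ?_) hl, ?_, ?_⟩
  · refine Or.inr (Or.inr ⟨C t, by simp, X j, ?_, Or.inr ?_⟩)
    · refine List.mem_cons_of_mem _ (List.mem_map_of_mem ?_)
      simp
    · simp [VP.scale]
  · exact List.mem_append_left _ (List.mem_map_of_mem hf)
  · simp only [List.length_append, List.length_map, List.length_cons, Finset.length_toList,
      Finset.card_univ]
    omega

/-- Linear combinations. -/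
lemma Easy.comb {s : ℕ} (N : ℕ) (a : ℕ → ℂ) (f : ℕ → MvPolynomial σ ℂ)
    (h : ∀ k < N, Easy s (f k)) : Easy (N * (s + 3) + 1) (∑ k ∈ range N, C (a k) * f k) := by
  induction N with
  | zero => exact ⟨[C 0], Slp.cons _ _ Slp.nil (Or.inr (Or.inl ⟨0, rfl⟩)), by simp, by simp⟩
  | succ N ih =>
    obtain ⟨l, hl, hf, hs⟩ := ih fun k hk => h k (by omega)
    obtain ⟨l', hl', hf', hs'⟩ := h N (by omega)
    have h1 : Slp (l' ++ l) := hl'.append hl
    have h2 : Slp (C (a N) :: (l' ++ l)) := Slp.cons _ _ h1 (Or.inr (Or.inl ⟨_, rfl⟩))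
    have h3 : Slp ((C (a N) * f N) :: C (a N) :: (l' ++ l)) :=
      Slp.cons _ _ h2 (Or.inr (Or.inr ⟨C (a N), by simp, f N, by simp [hf'], Or.inr rfl⟩))
    refine ⟨(∑ k ∈ range (N + 1), C (a k) * f k) :: (C (a N) * f N) :: C (a N) :: (l' ++ l),
      Slp.cons _ _ h3 (Or.inr (Or.inr ⟨∑ k ∈ range N, C (a k) * f k, by simp [hf],
        C (a N) * f N, by simp, Or.inl (sum_range_succ _ _)⟩)), by simp, ?_⟩
    simp only [List.length_cons, List.length_append]
    calc l'.length + l.length + 1 + 1 + 1 ≤ s + (N * (s + 3) + 1) + 3 := by omega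
      _ = (N + 1) * (s + 3) + 1 := by ring

end Pool.Agent.H181R3.VP
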