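import Mathlib

/-!
Dependent random choice with four random vertices, and distinct representatives for the common
neighbours.
-/

set_option autoImplicit false

namespace Pool.Agent.H181R3.VP

open Finset

variable {V : Type} [Fintype V] [DecidableEq V]

/-- Common neighbourhood. -/
def cn (R : V → V → Prop) [DecidableRel R] (u v : V) : Finset V := univ.filter fun w => R u w ∧ R v w

lemma drc (R : V → V → Prop) [DecidableRel R] (hs : ∀ a b, R a b → R b a) (δ : ℝ) (hδ : 0 < δ)
    (hR : δ * (Fintype.card V : ℝ) ^ 2 ≤ ((univ.filter fun p : V × V => R p.1 p.2).card : ℝ))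
    (m : ℕ) (h1 : m ^ 4 ≤ Fintype.card V) (h2 : (m : ℝ) + 1 ≤ δ ^ 4 * Fintype.card V) :
    ∃ U : Finset V, m ≤ U.card ∧ ∀ u ∈ U, ∀ v ∈ U, u ≠ v → m ^ 2 ≤ (cn R u v).card := by
  classical
  set n : ℕ := Fintype.card V with hn
  -- the two counts
  let UT : (Fin 4 → V) → Finset V := fun T => univ.filter fun u => ∀ k, R u (T k)
  let Bad : Finset (V × V) := univ.filter fun p => (cn R p.1 p.2).card < m ^ 2
  let BT : (Fin 4 → V) → Finset (V × V) := fun T => Bad.filter fun p => p.1 ∈ UT T ∧ p.2 ∈ UT T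
  have hn0 : (0 : ℝ) < n := by
    rcases Nat.eq_zero_or_pos n with h | h
    · rw [h] at h2
      simp at h2
      have : (0 : ℝ) ≤ m := by positivity
      linarith
    · exact_mod_cast h
  have hU : ∑ T, ((UT T).card : ℝ) = ∑ u, ((univ.filter fun w => R u w).card : ℝ) ^ 4 := by
    have : ∑ T, (UT T).card = ∑ u, (univ.filter fun w => R u w).card ^ 4 := by
      have e1 : ∀ T, (UT T).card = ∑ u, if (∀ k, R u (T k)) then 1 else 0 :=
        fun T => card_filter _ _
      rw [sum_congr rfl fun T _ => e1 T, sum_comm]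
      refine sum_congr rfl fun u _ => ?_
      rw [← card_filter]
      have : (univ.filter fun T : Fin 4 → V => ∀ k, R u (T k))
          = Fintype.piFinset fun _ => univ.filter fun w => R u w := by
        ext T
        simp [Fintype.mem_piFinset]
      rw [this, Fintype.card_piFinset_const]
    exact_mod_cast this
  have hB : ∑ T, ((BT T).card : ℝ) ≤ (n : ℝ) ^ 4 := by
    have h3 : ∑ T, (BT T).card = ∑ p ∈ Bad, (cn R p.1 p.2).card ^ 4 := by
      simp only [BT, card_filter]
      rw [sum_comm]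
      refine sum_congr rfl fun p _ => ?_
      rw [← card_filter]
      have : (univ.filter fun T : Fin 4 → V => p.1 ∈ UT T ∧ p.2 ∈ UT T)
          = Fintype.piFinset fun _ => cn R p.1 p.2 := by
        ext T
        simp only [UT, cn, mem_filter, mem_univ, true_and, Fintype.mem_piFinset]
        exact ⟨fun h k => ⟨h.1 k, h.2 k⟩, fun h => ⟨fun k => (h k).1, fun k => (h k).2⟩⟩
      rw [this, Fintype.card_piFinset_const]
    have h4 : ∑ p ∈ Bad, (cn R p.1 p.2).card ^ 4 ≤ n ^ 4 := by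
      calc ∑ p ∈ Bad, (cn R p.1 p.2).card ^ 4 ≤ ∑ p ∈ Bad, (m ^ 2) ^ 4 := by
            refine sum_le_sum fun p hp => ?_
            have := (mem_filter.mp hp).2
            exact Nat.pow_le_pow_left this.le 4
        _ = Bad.card * (m ^ 2) ^ 4 := by rw [sum_const, smul_eq_mul]
        _ ≤ (n * n) * (n * n) := by
            refine Nat.mul_le_mul ?_ ?_
            · calc Bad.card ≤ Fintype.card (V × V) := card_le_univ _
                _ = n * n := by rw [Fintype.card_prod]
            · calc (m ^ 2) ^ 4 = m ^ 4 * m ^ 4 := by ring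
                _ ≤ n * n := Nat.mul_le_mul h1 h1
        _ = n ^ 4 := by ring
    rw [← h3] at h4
    exact_mod_cast h4
  have hsum : ∑ u, ((univ.filter fun w => R u w).card : ℝ)
      = ((univ.filter fun p : V × V => R p.1 p.2).card : ℝ) := by
    have : (univ.filter fun p : V × V => R p.1 p.2).card = ∑ u, (univ.filter fun w => R u w).card := by
      rw [card_filter, Fintype.sum_prod_type]
      simp only [card_filter]
    rw [this]
    push_cast
    rfl
  have hpow : δ ^ 4 * (n : ℝ) ^ 5 ≤ ∑ u, ((univ.filter fun w => R u w).card : ℝ) ^ 4 := by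
    set d : V → ℝ := fun u => ((univ.filter fun w => R u w).card : ℝ) with hd
    have e1 : (∑ u, d u) ^ 2 ≤ n * ∑ u, d u ^ 2 := by
      have := sq_sum_le_card_mul_sum_sq (s := (univ : Finset V)) (f := d)
      simpa [hn] using this
    have e2 : (∑ u, d u ^ 2) ^ 2 ≤ n * ∑ u, d u ^ 4 := by
      have := sq_sum_le_card_mul_sum_sq (s := (univ : Finset V)) (f := fun u => d u ^ 2)
      have h3 : ∀ u, (d u ^ 2) ^ 2 = d u ^ 4 := fun u => by ring
      simpa [hn, h3] using this
    have e3 : δ * (n : ℝ) ^ 2 ≤ ∑ u, d u := by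
      rw [hsum]
      exact hR
    have e4 : (δ * (n : ℝ) ^ 2) ^ 2 ≤ (∑ u, d u) ^ 2 := pow_le_pow_left₀ (by positivity) e3 2
    have e5 : (δ * (n : ℝ) ^ 2) ^ 2 ≤ n * ∑ u, d u ^ 2 := e4.trans e1
    have e6 : ((δ * (n : ℝ) ^ 2) ^ 2) ^ 2 ≤ (n * ∑ u, d u ^ 2) ^ 2 :=
      pow_le_pow_left₀ (by positivity) e5 2
    have e7 : (n * ∑ u, d u ^ 2) ^ 2 ≤ (n : ℝ) ^ 3 * ∑ u, d u ^ 4 := by
      calc (n * ∑ u, d u ^ 2) ^ 2 = (n : ℝ) ^ 2 * (∑ u, d u ^ 2) ^ 2 := by ring
        _ ≤ (n : ℝ) ^ 2 * (n * ∑ u, d u ^ 4) := by gcongr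
        _ = (n : ℝ) ^ 3 * ∑ u, d u ^ 4 := by ring
    have e8 : (n : ℝ) ^ 3 * (δ ^ 4 * (n : ℝ) ^ 5) ≤ (n : ℝ) ^ 3 * ∑ u, d u ^ 4 := by
      calc (n : ℝ) ^ 3 * (δ ^ 4 * (n : ℝ) ^ 5) = ((δ * (n : ℝ) ^ 2) ^ 2) ^ 2 := by ring
        _ ≤ _ := e6.trans e7
    exact le_of_mul_le_mul_left e8 (by positivity)
  -- a good choice
  have hex : ∃ T : Fin 4 → V, (m : ℝ) ≤ ((UT T).card : ℝ) - ((BT T).card : ℝ) := by
    by_contra hcon
    push Not at hcon
    have h3 : ∑ T : Fin 4 → V, (((UT T).card : ℝ) - ((BT T).card : ℝ)) ≤ ∑ T : Fin 4 → V, (m : ℝ) :=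
      sum_le_sum fun T _ => (hcon T).le
    rw [sum_sub_distrib, hU, sum_const, card_univ, Fintype.card_fun, Fintype.card_fin, ← hn,
      nsmul_eq_mul] at h3
    push_cast at h3
    have h4 : (n : ℝ) ^ 4 * (m + 1) ≤ δ ^ 4 * (n : ℝ) ^ 5 := by
      calc (n : ℝ) ^ 4 * (m + 1) ≤ (n : ℝ) ^ 4 * (δ ^ 4 * n) := by gcongr
        _ = _ := by ring
    have h5 : ∑ T : Fin 4 → V, (((UT T).card : ℝ) - ((BT T).card : ℝ)) < ∑ T : Fin 4 → V, (m : ℝ) := by
      have : Nonempty V := by
        rw [← Fintype.card_pos_iff, ← hn]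
        exact_mod_cast hn0
      exact sum_lt_sum_of_nonempty univ_nonempty fun T _ => hcon T
    rw [sum_sub_distrib, hU, sum_const, card_univ, Fintype.card_fun, Fintype.card_fin, ← hn,
      nsmul_eq_mul] at h5
    push_cast at h5
    nlinarith [hpow, hB, h4, h5]
  obtain ⟨T, hT⟩ := hex
  refine ⟨UT T \ (BT T).image Prod.fst, ?_, ?_⟩
  · have h3 : (UT T).card - (BT T).card ≤ (UT T \ (BT T).image Prod.fst).card := by
      have h4 := le_card_sdiff ((BT T).image Prod.fst) (UT T)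
      have h5 : ((BT T).image Prod.fst).card ≤ (BT T).card := card_image_le
      omega
    have h4 : (m : ℝ) + ((BT T).card : ℝ) ≤ ((UT T).card : ℝ) := by linarith
    have h5 : m + (BT T).card ≤ (UT T).card := by exact_mod_cast h4
    omega
  · intro u hu v hv huv
    by_contra h3
    push Not at h3
    refine (mem_sdiff.mp hu).2 (mem_image.mpr ⟨(u, v), ?_, rfl⟩)
    exact mem_filter.mpr ⟨mem_filter.mpr ⟨mem_univ _, h3⟩, (mem_sdiff.mp hu).1, (mem_sdiff.mp hv).1⟩

/-- Branch vertices and distinct subdivision vertices. -/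
lemma branch (R : V → V → Prop) [DecidableRel R] (hs : ∀ a b, R a b → R b a) (δ : ℝ) (hδ : 0 < δ)
    (hR : δ * (Fintype.card V : ℝ) ^ 2 ≤ ((univ.filter fun p : V × V => R p.1 p.2).card : ℝ))
    (m : ℕ) (h1 : m ^ 4 ≤ Fintype.card V) (h2 : (m : ℝ) + 1 ≤ δ ^ 4 * Fintype.card V) :
    ∃ (u : Fin m → V) (w : {p : Fin m × Fin m // p.1 ≠ p.2} → V),
      Function.Injective (Sum.elim u w) ∧ ∀ p, R (u p.1.1) (w p) ∧ R (u p.1.2) (w p) := by
  classical
  obtain ⟨U, hU, hcn⟩ := drc R hs δ hδ hR m h1 h2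
  obtain ⟨U', hU', hc'⟩ := exists_subset_card_eq hU
  let e := (U'.equivFinOfCardEq hc').symm
  let u : Fin m → V := fun i => (e i : V)
  have hu : Function.Injective u := fun a b h => e.injective (Subtype.ext h)
  have huU : ∀ i, u i ∈ U := fun i => hU' (e i).2
  -- Hall
  let t : {p : Fin m × Fin m // p.1 ≠ p.2} → Finset V := fun p => cn R (u p.1.1) (u p.1.2) \ U'
  have hι : Fintype.card {p : Fin m × Fin m // p.1 ≠ p.2} + m ≤ m ^ 2 := by
    have h3 : Fintype.card {p : Fin m × Fin m // p.1 ≠ p.2} = m * m - m := by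
      rw [Fintype.card_subtype]
      have h4 : (univ.filter fun p : Fin m × Fin m => p.1 ≠ p.2) = (univ : Finset (Fin m)).offDiag := by
        ext p
        simp [mem_offDiag]
      rw [h4, offDiag_card]
      simp
    have h4 : m ≤ m * m := Nat.le_mul_self m
    rw [h3, sq]
    omega
  have ht : ∀ p, Fintype.card {p : Fin m × Fin m // p.1 ≠ p.2} ≤ (t p).card := by
    intro p
    have h3 := hcn _ (huU p.1.1) _ (huU p.1.2) (fun h => p.2 (hu h))
    have h4 := le_card_sdiff U' (cn R (u p.1.1) (u p.1.2))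
    show _ ≤ (cn R (u p.1.1) (u p.1.2) \ U').card
    omega
  obtain ⟨w, hw, hwt⟩ := (all_card_le_biUnion_card_iff_exists_injective t).mp (by
    intro s
    rcases s.eq_empty_or_nonempty with h | ⟨p, hp⟩
    · simp [h]
    · calc s.card ≤ Fintype.card {p : Fin m × Fin m // p.1 ≠ p.2} := card_le_univ _
        _ ≤ (t p).card := ht p
        _ ≤ (s.biUnion t).card := card_le_card (subset_biUnion_of_mem t hp))
  refine ⟨u, w, ?_, ?_⟩
  · refine hu.sumElim hw ?_
    intro i p h
    have := hwt p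
    refine (mem_sdiff.mp this).2 ?_
    rw [← h]
    exact (e i).2
  · intro p
    have := (mem_sdiff.mp (hwt p)).1
    exact (mem_filter.mp this).2

end Pool.Agent.H181R3.VP
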