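import Mathlib

/-!
The permanent of the subdivision gadget: branch vertices `Fin m`, one subdivision vertex for
every ordered pair of distinct branch vertices, and free vertices with loops.
-/

set_option autoImplicit false

namespace Pool.Agent.H181R3.VP

open Finset

/-- Ordered pairs of distinct branch vertices. -/
abbrev Prs (m : ℕ) : Type := {p : Fin m × Fin m // p.1 ≠ p.2}

variable {R : Type*} [CommRing R] {m : ℕ} {ρ : Type} [Fintype ρ] [DecidableEq ρ]

/-- The gadget matrix. -/
def gad (x : Fin m → Fin m → R) :
    Matrix ((Fin m ⊕ Prs m) ⊕ ρ) ((Fin m ⊕ Prs m) ⊕ ρ) R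
  | .inl (.inl j), .inl (.inl i) => if j = i then x i i else 0
  | .inl (.inr p), .inl (.inl i) => if p.1.1 = i then x p.1.2 i else 0
  | .inr _, .inl (.inl _) => 0
  | .inl (.inl j), .inl (.inr p) => if p.1.2 = j then 1 else 0
  | .inl (.inr q), .inl (.inr p) => if p = q then 1 else 0
  | .inr _, .inl (.inr _) => 0
  | y, .inr r => if y = .inr r then 1 else 0

/-- The permutation of the gadget attached to a permutation of the branch vertices. -/
def fwd (σ : Equiv.Perm (Fin m)) : (Fin m ⊕ Prs m) ⊕ ρ → (Fin m ⊕ Prs m) ⊕ ρ
  | .inl (.inl i) => if h : i = σ i then .inl (.inl i) else .inl (.inr ⟨(i, σ i), h⟩)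
  | .inl (.inr p) => if σ p.1.1 = p.1.2 then .inl (.inl p.1.2) else .inl (.inr p)
  | .inr r => .inr r

lemma fwd_inj (σ : Equiv.Perm (Fin m)) : Function.Injective (fwd (ρ := ρ) σ) := by
  rintro ((i | p) | r) ((j | q) | s) h
  · simp only [fwd] at h
    split_ifs at h with h1 h2 h2
    · simpa using h
    · simp at h
    · simp at h
    · simp at h; rw [h]
  · simp only [fwd] at h
    split_ifs at h with h1 h2 h2
    · simp at h
      rw [h] at h1
      have : σ q.1.1 = σ q.1.2 := by rw [h2]; exact h1
      exact absurd (σ.injective this) q.2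
    · simp at h
    · simp at h
    · simp at h
      rw [← h] at h2
      exact absurd rfl h2
  · simp only [fwd] at h
    split_ifs at h <;> simp at h
  · simp only [fwd] at h
    split_ifs at h with h1 h2 h2
    · simp at h
      rw [← h] at h2
      have : σ p.1.1 = σ p.1.2 := by rw [h1]; exact h2
      exact absurd (σ.injective this) p.2
    · simp at h
    · simp at h
    · simp at h
      rw [h] at h1
      exact absurd rfl h1
  · simp only [fwd] at h
    split_ifs at h with h1 h2 h2
    · simp at h
      have h3 : p.1.1 = q.1.1 := σ.injective (by rw [h1, h2, h])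
      have : p = q := Subtype.ext (Prod.ext h3 h)
      rw [this]
    · simp at h
    · simp at h
    · simpa using h
  · simp only [fwd] at h
    split_ifs at h <;> simp at h
  · simp only [fwd] at h
    split_ifs at h <;> simp at h
  · simp only [fwd] at h
    split_ifs at h <;> simp at h
  · simpa [fwd] using h

/-- The same as a permutation. -/
noncomputable def perm (σ : Equiv.Perm (Fin m)) : Equiv.Perm ((Fin m ⊕ Prs m) ⊕ ρ) :=
  Equiv.ofBijective (fwd σ) (Finite.injective_iff_bijective.mp (fwd_inj σ))

lemma perm_inj : Function.Injective (perm (m := m) (ρ := ρ)) := by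
  intro σ σ' h
  ext i
  have h1 : fwd (ρ := ρ) σ (.inl (.inl i)) = fwd σ' (.inl (.inl i)) :=
    congrArg (fun e : Equiv.Perm ((Fin m ⊕ Prs m) ⊕ ρ) => e (.inl (.inl i))) h
  simp only [fwd] at h1
  split_ifs at h1 with h2 h3 h3
  · rw [← h2, ← h3]
  · simp at h1
  · simp at h1
  · simp at h1
    rw [h1]

/-- A permutation of the gadget that contributes comes from a permutation of the branch
vertices. -/
lemma exists_perm (x : Fin m → Fin m → R) (π : Equiv.Perm ((Fin m ⊕ Prs m) ⊕ ρ))
    (h : ∀ b, gad x (π b) b ≠ 0) : ∃ σ, perm σ = π := by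
  have hr : ∀ r, π (.inr r) = .inr r := by
    intro r
    by_contra h1
    refine h (.inr r) ?_
    cases hh : π (.inr r) with
    | inl y =>
      cases y <;> simp [gad]
    | inr s =>
      have h3 : s ≠ r := by
        rintro rfl
        exact h1 hh
      simp [gad, h3]
  have hp : ∀ p : Prs m, π (.inl (.inr p)) = .inl (.inr p) ∨ π (.inl (.inr p)) = .inl (.inl p.1.2) := by
    intro p
    have h1 := h (.inl (.inr p))
    cases hh : π (.inl (.inr p)) with
    | inl y =>
      rw [hh] at h1
      cases y with
      | inl j =>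
        right
        simp only [gad] at h1
        by_cases h2 : p.1.2 = j
        · rw [h2]
        · simp [h2] at h1
      | inr q =>
        left
        simp only [gad] at h1
        by_cases h2 : p = q
        · rw [h2]
        · simp [h2] at h1
    | inr s =>
      rw [hh] at h1
      simp [gad] at h1
  have hi : ∀ i : Fin m, π (.inl (.inl i)) = .inl (.inl i) ∨
      ∃ p : Prs m, p.1.1 = i ∧ π (.inl (.inl i)) = .inl (.inr p) := by
    intro i
    have h1 := h (.inl (.inl i))
    cases hh : π (.inl (.inl i)) with
    | inl y =>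
      rw [hh] at h1
      cases y with
      | inl j =>
        left
        simp only [gad] at h1
        by_cases h2 : j = i
        · rw [h2]
        · simp [h2] at h1
      | inr q =>
        right
        simp only [gad] at h1
        by_cases h2 : q.1.1 = i
        · exact ⟨q, h2, rfl⟩
        · simp [h2] at h1
    | inr s =>
      rw [hh] at h1
      simp [gad] at h1
  -- the image of `i`
  have hex : ∀ i : Fin m, ∃ j, (j = i ∧ π (.inl (.inl i)) = .inl (.inl i)) ∨
      ∃ hj : i ≠ j, π (.inl (.inl i)) = .inl (.inr ⟨(i, j), hj⟩) := by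
    intro i
    rcases hi i with h1 | ⟨⟨⟨a, b⟩, hab⟩, h1, h2⟩
    · exact ⟨i, Or.inl ⟨rfl, h1⟩⟩
    · simp only at h1
      subst h1
      exact ⟨b, Or.inr ⟨hab, h2⟩⟩
  choose s hs using hex
  -- if `π` moves `i` to `(i, j)` then it moves `(i, j)` to `j`
  have hmove : ∀ (i j : Fin m) (hj : i ≠ j), π (.inl (.inl i)) = .inl (.inr ⟨(i, j), hj⟩) →
      π (.inl (.inr ⟨(i, j), hj⟩)) = .inl (.inl j) := by
    intro i j hj h1
    rcases hp ⟨(i, j), hj⟩ with h2 | h2
    · have := π.injective (h1.trans h2.symm)
      simp at this
    · exact h2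
  have hinj : Function.Injective s := by
    intro i i' hii
    rcases hs i with ⟨h1, h2⟩ | ⟨h1, h2⟩ <;> rcases hs i' with ⟨h3, h4⟩ | ⟨h3, h4⟩
    · rw [← h1, ← h3, hii]
    · have h5 := (hmove _ _ h3 h4).trans (by rw [← hii, h1] :
        (Sum.inl (Sum.inl (s i')) : (Fin m ⊕ Prs m) ⊕ ρ) = Sum.inl (Sum.inl i))
      have := π.injective (h5.trans h2.symm)
      simp at this
    · have h5 := (hmove _ _ h1 h2).trans (by rw [hii, h3] :
        (Sum.inl (Sum.inl (s i)) : (Fin m ⊕ Prs m) ⊕ ρ) = Sum.inl (Sum.inl i'))
      have := π.injective (h5.trans h4.symm)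
      simp at this
    · have h5 := (hmove _ _ h1 h2).trans (by rw [hii] :
        (Sum.inl (Sum.inl (s i)) : (Fin m ⊕ Prs m) ⊕ ρ) = Sum.inl (Sum.inl (s i')))
      have h6 := hmove _ _ h3 h4
      have h7 := π.injective (h5.trans h6.symm)
      simp at h7
      exact h7.1
  refine ⟨Equiv.ofBijective s (Finite.injective_iff_bijective.mp hinj), ?_⟩
  refine Equiv.ext fun b => ?_
  have hs' : ∀ i, (Equiv.ofBijective s (Finite.injective_iff_bijective.mp hinj)) i = s i :=
    fun i => rfl
  show fwd _ b = π b
  rcases b with (i | p) | r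
  · simp only [fwd, hs']
    rcases hs i with ⟨h1, h2⟩ | ⟨h1, h2⟩
    · rw [dif_pos h1.symm, h2]
    · rw [dif_neg h1, h2]
  · simp only [fwd, hs']
    obtain ⟨⟨i, j⟩, hij⟩ := p
    simp only
    rcases hs i with ⟨h1, h2⟩ | ⟨h1, h2⟩
    · rw [if_neg (by rw [h1]; exact hij)]
      rcases hp ⟨(i, j), hij⟩ with h3 | h3
      · exact h3.symm
      · exfalso
        simp only at h3
        -- then `j` is not hit otherwise
        rcases hs j with ⟨h4, h5⟩ | ⟨h4, h5⟩
        · have := π.injective (h3.trans h5.symm)
          simp at this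
        · -- the preimages of `j` under the permutation `s`
          obtain ⟨k, hk⟩ := (Finite.injective_iff_bijective.mp hinj).2 j
          rcases hs k with ⟨h6, h7⟩ | ⟨h6, h7⟩
          · rw [hk] at h6
            rw [← h6] at h7
            have := π.injective (h3.trans h7.symm)
            simp at this
          · have h8 := (hmove _ _ h6 h7).trans (by rw [hk] :
              (Sum.inl (Sum.inl (s k)) : (Fin m ⊕ Prs m) ⊕ ρ) = Sum.inl (Sum.inl j))
            have h9 := π.injective (h3.trans h8.symm)
            simp at h9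
            rw [← h9.1] at hk
            exact hij (by rw [← h1]; exact hk)
    · by_cases hj : s i = j
      · rw [if_pos hj]
        subst hj
        exact (hmove _ _ h1 h2).symm
      · rw [if_neg hj]
        rcases hp ⟨(i, j), hij⟩ with h3 | h3
        · exact h3.symm
        · exfalso
          simp only at h3
          obtain ⟨k, hk⟩ := (Finite.injective_iff_bijective.mp hinj).2 j
          rcases hs k with ⟨h6, h7⟩ | ⟨h6, h7⟩
          · rw [hk] at h6
            rw [← h6] at h7
            have := π.injective (h3.trans h7.symm)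
            simp at this
          · have h8 := (hmove _ _ h6 h7).trans (by rw [hk] :
              (Sum.inl (Sum.inl (s k)) : (Fin m ⊕ Prs m) ⊕ ρ) = Sum.inl (Sum.inl j))
            have h9 := π.injective (h3.trans h8.symm)
            simp at h9
            rw [← h9.1] at hk
            exact hj hk
  · simp only [fwd]
    exact (hr r).symm

/-- The permanent of the gadget is the permanent of the branch matrix. -/
theorem permanent_gad (x : Fin m → Fin m → R) :
    Matrix.permanent (gad (ρ := ρ) x) = ∑ σ : Equiv.Perm (Fin m), ∏ i, x (σ i) i := by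
  rw [Matrix.permanent]
  symm
  refine Finset.sum_of_injOn (perm (ρ := ρ)) (perm_inj.injOn) (by simp [Set.MapsTo]) ?_ ?_
  · intro π _ hπ
    by_contra h1
    have h2 : ∀ b, gad x (π b) b ≠ 0 := by
      intro b hb
      exact h1 (Finset.prod_eq_zero (mem_univ b) hb)
    obtain ⟨σ, hσ⟩ := exists_perm x π h2
    exact hπ ⟨σ, by simp, hσ⟩
  · intro σ _
    have hperm : ∀ b, perm (ρ := ρ) σ b = fwd σ b := fun b => rfl
    simp only [hperm]
    rw [Fintype.prod_sum_type, Fintype.prod_sum_type]
    have h1 : ∀ r : ρ, gad x (fwd σ (.inr r)) (.inr r) = 1 := by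
      intro r
      simp [fwd, gad]
    have h2 : ∀ p : Prs m, gad (ρ := ρ) x (fwd σ (.inl (.inr p))) (.inl (.inr p)) = 1 := by
      intro p
      simp only [fwd]
      split_ifs with h3
      · simp [gad]
      · simp [gad]
    have h3 : ∀ i : Fin m, gad (ρ := ρ) x (fwd σ (.inl (.inl i))) (.inl (.inl i)) = x (σ i) i := by
      intro i
      simp only [fwd]
      split_ifs with h3
      · simp only [gad, if_true]
        rw [← h3]
      · simp [gad]
    simp only [h1, h2, h3, prod_const_one, mul_one]

end Pool.Agent.H181R3.VP
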