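import Pool.Agent.H181R3.VP.Gadget
import Pool.Agent.H181R3.VP.Drc
import Pool.Agent.H181R3.VP.Circ

/-!
The permanent on dense coordinate slices.
-/

set_option autoImplicit false

namespace Pool.Agent.H181R3.VP

open Finset MvPolynomial

/-- The generic matrix. -/
noncomputable def gen (m : ℕ) : Matrix (Fin m) (Fin m) (MvPolynomial (Fin m × Fin m) ℂ) :=
  fun i j => X (i, j)

/-- The matrix with variables at the positions of `S` and the entries of `A` elsewhere. -/
noncomputable def slice {n : ℕ} (S : Finset (Fin n × Fin n)) (A : Matrix (Fin n) (Fin n) ℂ) :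
    Matrix (Fin n) (Fin n) (MvPolynomial (Fin n × Fin n) ℂ) :=
  fun i j => if (i, j) ∈ S then X (i, j) else C (A i j)

lemma scalar (n a : ℕ) (ha : a ≤ n) :
    ∑ t ∈ range (n + 1), ((((-1 : ℤ) ^ (n - t) * n.choose t : ℤ) : ℂ) / (n.factorial : ℂ)) * (t : ℂ) ^ a
      = if a = n then 1 else 0 := by
  have h0 : (n.factorial : ℂ) ≠ 0 := by exact_mod_cast n.factorial_ne_zero
  have h1 := fwdDiff_iter_eq_sum_shift (1 : ℂ) (fun r : ℂ => r ^ a) n 0
  have h2 : ∑ t ∈ range (n + 1), ((((-1 : ℤ) ^ (n - t) * n.choose t : ℤ) : ℂ) / (n.factorial : ℂ)) * (t : ℂ) ^ a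
      = (∑ t ∈ range (n + 1), ((-1 : ℤ) ^ (n - t) * n.choose t) • ((0 : ℂ) + t • (1 : ℂ)) ^ a)
        / (n.factorial : ℂ) := by
    rw [sum_div]
    refine sum_congr rfl fun t _ => ?_
    rw [zsmul_eq_mul, nsmul_eq_mul, mul_one, zero_add]
    ring
  rw [h2, ← h1]
  split_ifs with h
  · subst h
    rw [fwdDiff_iter_eq_factorial]
    simpa using h0
  · have h3 : a < n := lt_of_le_of_ne ha h
    rw [fwdDiff_iter_pow_eq_zero_of_lt h3]
    simp

/-- The part of degree `n` of the permanent of a slice. -/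
lemma top {n : ℕ} (S : Finset (Fin n × Fin n)) (A : Matrix (Fin n) (Fin n) ℂ) :
    ∑ t ∈ range (n + 1), C ((((-1 : ℤ) ^ (n - t) * n.choose t : ℤ) : ℂ) / (n.factorial : ℂ)) *
      scale (t : ℂ) (slice S A).permanent = (slice S 0).permanent := by
  classical
  let a : Equiv.Perm (Fin n) → ℕ := fun σ => (univ.filter fun i => (σ i, i) ∈ S).card
  have ha : ∀ σ, a σ ≤ n := fun σ => by
    simpa using card_filter_le (univ : Finset (Fin n)) fun i => (σ i, i) ∈ S
  have h1 : ∀ t : ℂ, scale t (slice S A).permanent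
      = ∑ σ : Equiv.Perm (Fin n), C (t ^ a σ) * ∏ i, slice S A (σ i) i := by
    intro t
    rw [Matrix.permanent, map_sum]
    refine sum_congr rfl fun σ _ => ?_
    rw [map_prod]
    have h2 : ∀ i, scale t (slice S A (σ i) i)
        = (if (σ i, i) ∈ S then C t else 1) * slice S A (σ i) i := by
      intro i
      simp only [slice]
      split_ifs with h
      · simp [scale]
      · rw [one_mul, ← MvPolynomial.algebraMap_eq, AlgHom.commutes]
    rw [prod_congr rfl fun i _ => h2 i, prod_mul_distrib]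
    congr 1
    rw [prod_ite, prod_const, prod_const_one, mul_one, map_pow]
  have h2 : ∀ σ : Equiv.Perm (Fin n), (if a σ = n then (1 : ℂ) else 0) • ∏ i, slice S A (σ i) i
      = ∏ i, slice S 0 (σ i) i := by
    intro σ
    split_ifs with h
    · rw [one_smul]
      refine prod_congr rfl fun i _ => ?_
      have h3 : (univ.filter fun i => (σ i, i) ∈ S) = univ := by
        apply eq_univ_of_card
        rw [Fintype.card_fin]
        exact h
      have h5 : i ∈ univ.filter fun i => (σ i, i) ∈ S := by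
        rw [h3]
        exact mem_univ i
      have h4 : (σ i, i) ∈ S := (mem_filter.mp h5).2
      simp only [slice, h4, if_true]
    · rw [zero_smul]
      symm
      have h3 : ∃ i, (σ i, i) ∉ S := by
        by_contra h4
        push Not at h4
        apply h
        show (univ.filter fun i => (σ i, i) ∈ S).card = n
        rw [filter_true_of_mem fun i _ => h4 i]
        simp
      obtain ⟨i, hi⟩ := h3
      refine prod_eq_zero (mem_univ i) ?_
      simp [slice, hi]
  calc ∑ t ∈ range (n + 1), C ((((-1 : ℤ) ^ (n - t) * n.choose t : ℤ) : ℂ) / (n.factorial : ℂ)) *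
        scale (t : ℂ) (slice S A).permanent
      = ∑ t ∈ range (n + 1), ∑ σ : Equiv.Perm (Fin n),
          C ((((-1 : ℤ) ^ (n - t) * n.choose t : ℤ) : ℂ) / (n.factorial : ℂ)) *
            (C ((t : ℂ) ^ a σ) * ∏ i, slice S A (σ i) i) := by
        refine sum_congr rfl fun t _ => ?_
        rw [h1, mul_sum]
    _ = ∑ σ : Equiv.Perm (Fin n), ∑ t ∈ range (n + 1),
          C ((((-1 : ℤ) ^ (n - t) * n.choose t : ℤ) : ℂ) / (n.factorial : ℂ)) *
            (C ((t : ℂ) ^ a σ) * ∏ i, slice S A (σ i) i) := sum_comm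
    _ = ∑ σ : Equiv.Perm (Fin n), ∏ i, slice S 0 (σ i) i := by
        refine sum_congr rfl fun σ _ => ?_
        rw [← h2 σ, ← scalar n (a σ) (ha σ), sum_smul]
        refine sum_congr rfl fun t _ => ?_
        rw [← mul_assoc, ← map_mul, smul_eq_C_mul]
    _ = (slice S 0).permanent := rfl

lemma reduce {n m : ℕ} (S : Finset (Fin n × Fin n)) (τ : Equiv.Perm (Fin n))
    (hτ : ∀ i, (τ i, i) ∈ S) (u : Fin m → Fin n) (w : Prs m → Fin n)
    (hinj : Function.Injective (Sum.elim u w))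
    (hR : ∀ p : Prs m, (τ (w p), u p.1.1) ∈ S ∧ (τ (u p.1.2), w p) ∈ S) :
    ∃ φ : MvPolynomial (Fin n × Fin n) ℂ →ₐ[ℂ] MvPolynomial (Fin m × Fin m) ℂ,
      (∀ j, (∃ k, φ (X j) = X k) ∨ ∃ a, φ (X j) = C a) ∧
      φ (slice S 0).permanent = (gen m).permanent := by
  classical
  let f := Sum.elim u w
  let e : (Fin m ⊕ Prs m) ⊕ ↥(Set.range f)ᶜ ≃ Fin n :=
    ((Equiv.ofInjective f hinj).sumCongr (Equiv.refl _)).trans (Equiv.Set.sumCompl (Set.range f))
  have he1 : ∀ i, e (.inl (.inl i)) = u i := fun i => rfl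
  have he2 : ∀ p, e (.inl (.inr p)) = w p := fun p => rfl
  let x : Fin m → Fin m → MvPolynomial (Fin m × Fin m) ℂ := fun i j => X (i, j)
  let G := gad (ρ := ↥(Set.range f)ᶜ) x
  have hG : ∀ a b, (∃ k, G a b = X k) ∨ ∃ c, G a b = C c := by
    intro a b
    rcases b with (i | p) | r
    · rcases a with (j | q) | s
      · by_cases h : j = i
        · left
          exact ⟨(i, i), by simp [G, gad, x, h]⟩
        · right
          exact ⟨0, by simp [G, gad, h]⟩
      · by_cases h : q.1.1 = i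
        · left
          exact ⟨(q.1.2, i), by simp [G, gad, x, h]⟩
        · right
          exact ⟨0, by simp [G, gad, h]⟩
      · right
        exact ⟨0, by simp [G, gad]⟩
    · rcases a with (j | q) | s
      · by_cases h : p.1.2 = j
        · right
          exact ⟨1, by simp [G, gad, h]⟩
        · right
          exact ⟨0, by simp [G, gad, h]⟩
      · by_cases h : p = q
        · right
          exact ⟨1, by simp [G, gad, h]⟩
        · right
          exact ⟨0, by simp [G, gad, h]⟩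
      · right
        exact ⟨0, by simp [G, gad]⟩
    · by_cases h : a = .inr r
      · right
        exact ⟨1, by simp [G, gad, h]⟩
      · right
        refine ⟨0, ?_⟩
        rcases a with (j | q) | s <;> simp_all [G, gad]
  have hS : ∀ a b, G a b ≠ 0 → (τ (e a), e b) ∈ S := by
    intro a b h
    rcases b with (i | p) | r
    · rcases a with (j | q) | s
      · by_cases h1 : j = i
        · rw [h1]
          exact hτ _
        · simp [G, gad, h1] at h
      · by_cases h1 : q.1.1 = i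
        · rw [he1, he2, ← h1]
          exact (hR q).1
        · simp [G, gad, h1] at h
      · simp [G, gad] at h
    · rcases a with (j | q) | s
      · by_cases h1 : p.1.2 = j
        · rw [he1, he2, ← h1]
          exact (hR p).2
        · simp [G, gad, h1] at h
      · by_cases h1 : p = q
        · rw [h1]
          exact hτ _
        · simp [G, gad, h1] at h
      · simp [G, gad] at h
    · by_cases h1 : a = .inr r
      · rw [h1]
        exact hτ _
      · exfalso
        apply h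
        rcases a with (j | q) | s <;> simp_all [G, gad]
  refine ⟨aeval fun p => G (e.symm (τ.symm p.1)) (e.symm p.2), fun j => ?_, ?_⟩
  · rw [aeval_X]
    exact hG _ _
  · rw [Matrix.permanent, map_sum]
    have h1 : ∀ σ : Equiv.Perm (Fin n), (aeval fun p : Fin n × Fin n =>
        G (e.symm (τ.symm p.1)) (e.symm p.2)) (∏ i, slice S 0 (σ i) i)
        = ∏ i, G (e.symm (τ.symm (σ i))) (e.symm i) := by
      intro σ
      rw [map_prod]
      refine prod_congr rfl fun i _ => ?_
      simp only [slice]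
      split_ifs with h
      · rw [aeval_X]
      · simp only [Matrix.zero_apply, map_zero]
        by_contra h2
        have h3 := hS _ _ (Ne.symm h2)
        rw [Equiv.apply_symm_apply, Equiv.apply_symm_apply, Equiv.apply_symm_apply] at h3
        exact h h3
    rw [sum_congr rfl fun σ _ => h1 σ]
    have h2 : ∑ σ : Equiv.Perm (Fin n), ∏ i, G (e.symm (τ.symm (σ i))) (e.symm i)
        = ∑ π : Equiv.Perm ((Fin m ⊕ Prs m) ⊕ ↥(Set.range f)ᶜ), ∏ b, G (π b) b := by
      let E : Equiv.Perm (Fin n) ≃ Equiv.Perm ((Fin m ⊕ Prs m) ⊕ ↥(Set.range f)ᶜ) :=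
        (Equiv.mulLeft τ⁻¹).trans (Equiv.permCongr e.symm)
      refine Fintype.sum_equiv E _ _ fun σ => ?_
      refine (Fintype.prod_equiv e _ _ fun b => ?_).symm
      simp [E, Equiv.permCongr_apply]
    rw [h2]
    have h3 := permanent_gad (ρ := ↥(Set.range f)ᶜ) x
    rw [Matrix.permanent] at h3
    show ∑ π : Equiv.Perm ((Fin m ⊕ Prs m) ⊕ ↥(Set.range f)ᶜ), ∏ b, gad x (π b) b = _
    rw [h3]
    rfl

/-- The main reduction. -/
theorem hard {n m s : ℕ} (ε : ℝ) (hε : 0 < ε) (h1 : m ^ 4 ≤ n) (h2 : (m : ℝ) + 1 ≤ ε ^ 4 * n)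
    (h3 : 1 ≤ ε * n) (S : Finset (Fin n × Fin n)) (hS : (1 / 2 + ε) * (n : ℝ) ^ 2 ≤ (S.card : ℝ))
    (hPM : ∃ τ : Equiv.Perm (Fin n), ∀ i, (τ i, i) ∈ S) (A : Matrix (Fin n) (Fin n) ℂ)
    (h : Easy s (slice S A).permanent) :
    Easy ((n + 1) * (s + (n * n + 1) + 3) + 1) (gen m).permanent := by
  classical
  obtain ⟨τ, hτ⟩ := hPM
  -- the relation
  let R : Fin n → Fin n → Prop := fun a b => a ≠ b ∧ (τ a, b) ∈ S ∧ (τ b, a) ∈ S
  have hsym : ∀ a b, R a b → R b a := fun a b h => ⟨h.1.symm, h.2.2, h.2.1⟩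
  -- the count
  let S' : Finset (Fin n × Fin n) := univ.filter fun p => (τ p.1, p.2) ∈ S
  let S'' : Finset (Fin n × Fin n) := univ.filter fun p => (τ p.2, p.1) ∈ S
  have hS' : S'.card = S.card := by
    refine card_bij (fun p _ => (τ p.1, p.2)) ?_ ?_ ?_
    · intro p hp
      exact (mem_filter.mp hp).2
    · rintro ⟨a, b⟩ _ ⟨c, d⟩ _ h
      simpa using h
    · rintro ⟨a, b⟩ hab
      exact ⟨(τ.symm a, b), by simpa [S'] using hab, by simp⟩
  have hS'' : S''.card = S.card := by
    refine card_bij (fun p _ => (τ p.2, p.1)) ?_ ?_ ?_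
    · intro p hp
      exact (mem_filter.mp hp).2
    · rintro ⟨a, b⟩ _ ⟨c, d⟩ _ h
      simp at h
      simp [h]
    · rintro ⟨a, b⟩ hab
      exact ⟨(b, τ.symm a), by simpa [S''] using hab, by simp⟩
  have hcount : 2 * S.card ≤ n * n + n + (univ.filter fun p : Fin n × Fin n => R p.1 p.2).card := by
    have e1 : (S' ∪ S'').card + (S' ∩ S'').card = S'.card + S''.card := card_union_add_card_inter _ _
    have e2 : (S' ∪ S'').card ≤ n * n := by
      calc (S' ∪ S'').card ≤ Fintype.card (Fin n × Fin n) := card_le_univ _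
        _ = n * n := by simp
    have e3 : S' ∩ S'' ⊆ (univ : Finset (Fin n)).diag ∪ univ.filter fun p : Fin n × Fin n => R p.1 p.2 := by
      rintro ⟨a, b⟩ hp
      rw [mem_inter] at hp
      by_cases hab : a = b
      · exact mem_union_left _ (by simp [hab])
      · exact mem_union_right _ (mem_filter.mpr ⟨mem_univ _, hab, (mem_filter.mp hp.1).2,
          (mem_filter.mp hp.2).2⟩)
    have e4 := (card_le_card e3).trans (card_union_le _ _)
    rw [diag_card, card_fin] at e4
    omega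
  have hcount' : ε * (Fintype.card (Fin n) : ℝ) ^ 2
      ≤ ((univ.filter fun p : Fin n × Fin n => R p.1 p.2).card : ℝ) := by
    have e1 : (2 : ℝ) * S.card ≤ n * n + n + (univ.filter fun p : Fin n × Fin n => R p.1 p.2).card := by
      exact_mod_cast hcount
    rw [Fintype.card_fin]
    have hn : (0 : ℝ) ≤ n := Nat.cast_nonneg n
    nlinarith [mul_le_mul_of_nonneg_right h3 hn]
  obtain ⟨u, w, hinj, hR⟩ := branch R hsym ε hε hcount' m (by simpa using h1) (by simpa using h2)
  obtain ⟨φ, hφ, hφp⟩ := reduce S τ hτ u w hinj fun p => ⟨(hR p).1.2.2, (hR p).2.2.1⟩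
  rw [← hφp, ← top S A]
  refine Easy.proj φ hφ (Easy.comb (n + 1) _ _ fun t _ => ?_)
  have := Easy.scale (t : ℂ) h
  simpa using this

/-- Polynomial bounds. -/
lemma poly_bound (K c : ℕ) : ∃ c' : ℕ, ∀ m : ℕ,
    (K * (m ^ 4 + 1) + 1) * ((K * (m ^ 4 + 1)) ^ c + c +
      (K * (m ^ 4 + 1) * (K * (m ^ 4 + 1)) + 1) + 3) + 1 ≤ m ^ c' + c' := by
  obtain ⟨d, hd⟩ : ∃ d : ℕ, ∀ m : ℕ, (K * (m ^ 4 + 1) + 1) * ((K * (m ^ 4 + 1)) ^ c + c +
      (K * (m ^ 4 + 1) * (K * (m ^ 4 + 1)) + 1) + 3) + 1 ≤ (m + 2) ^ d := by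
    have hK : ∀ (k m : ℕ), k ≤ (m + 2) ^ k := fun k m =>
      (Nat.lt_two_pow_self (n := k)).le.trans (Nat.pow_le_pow_left (by omega) k)
    refine ⟨(K + 5) + ((K + 4) * c + c + 2 * (K + 4) + 2 + 3) + 1, fun m => ?_⟩
    have h0 : 1 ≤ m + 2 := by omega
    have h1 : K * (m ^ 4 + 1) ≤ (m + 2) ^ (K + 4) := by
      rw [pow_add]
      refine Nat.mul_le_mul (hK K m) ?_
      nlinarith [pow_le_pow_left₀ (Nat.zero_le m) (by omega : m ≤ m + 1) 4, Nat.zero_le m,
        Nat.zero_le (m ^ 2), Nat.zero_le (m ^ 3)]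
    set N := K * (m ^ 4 + 1) with hN
    have h2 : N + 1 ≤ (m + 2) ^ (K + 5) := by
      calc N + 1 ≤ (m + 2) ^ (K + 4) + (m + 2) ^ (K + 4) := Nat.add_le_add h1 (Nat.one_le_pow _ _ (by omega))
        _ = (m + 2) ^ (K + 4) * 2 := by ring
        _ ≤ (m + 2) ^ (K + 4) * (m + 2) := Nat.mul_le_mul_left _ (by omega)
        _ = (m + 2) ^ (K + 5) := by ring
    set D := (K + 4) * c + c + 2 * (K + 4) + 2 with hD
    have mono : ∀ {a b : ℕ}, a ≤ b → (m + 2) ^ a ≤ (m + 2) ^ b := fun h =>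
      Nat.pow_le_pow_right (by omega) h
    have h3 : N ^ c ≤ (m + 2) ^ D := by
      calc N ^ c ≤ ((m + 2) ^ (K + 4)) ^ c := Nat.pow_le_pow_left h1 c
        _ = (m + 2) ^ ((K + 4) * c) := by rw [pow_mul]
        _ ≤ _ := mono (by omega)
    have h4 : c ≤ (m + 2) ^ D := (hK c m).trans (mono (by omega))
    have h5 : N * N ≤ (m + 2) ^ D := by
      calc N * N ≤ (m + 2) ^ (K + 4) * (m + 2) ^ (K + 4) := Nat.mul_le_mul h1 h1
        _ = (m + 2) ^ (2 * (K + 4)) := by ring
        _ ≤ _ := mono (by omega)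
    have h6 : 4 ≤ (m + 2) ^ D := by
      calc 4 = 2 ^ 2 := rfl
        _ ≤ (m + 2) ^ 2 := Nat.pow_le_pow_left (by omega) 2
        _ ≤ _ := mono (by omega)
    have h7 : N ^ c + c + (N * N + 1) + 3 ≤ (m + 2) ^ (D + 3) := by
      calc N ^ c + c + (N * N + 1) + 3 ≤ 4 * (m + 2) ^ D := by omega
        _ ≤ (m + 2) ^ 3 * (m + 2) ^ D := by
            refine Nat.mul_le_mul_right _ ?_
            calc 4 ≤ 2 ^ 3 := by norm_num
              _ ≤ (m + 2) ^ 3 := Nat.pow_le_pow_left (by omega) 3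
        _ = _ := by ring
    calc (N + 1) * (N ^ c + c + (N * N + 1) + 3) + 1
        ≤ (m + 2) ^ (K + 5) * (m + 2) ^ (D + 3) + (m + 2) ^ (K + 5) * (m + 2) ^ (D + 3) :=
          Nat.add_le_add (Nat.mul_le_mul h2 h7)
            (Nat.mul_pos (Nat.pow_pos (by omega)) (Nat.pow_pos (by omega)))
      _ = (m + 2) ^ (K + 5) * (m + 2) ^ (D + 3) * 2 := by ring
      _ ≤ (m + 2) ^ (K + 5) * (m + 2) ^ (D + 3) * (m + 2) := Nat.mul_le_mul_left _ (by omega)
      _ = (m + 2) ^ ((K + 5) + (D + 3) + 1) := by ring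
  refine ⟨2 * d + 3 ^ d, fun m => (hd m).trans ?_⟩
  rcases Nat.lt_or_ge m 2 with hm | hm
  · calc (m + 2) ^ d ≤ 3 ^ d := Nat.pow_le_pow_left (by omega) d
      _ ≤ m ^ (2 * d + 3 ^ d) + (2 * d + 3 ^ d) := by omega
  · calc (m + 2) ^ d ≤ (m * m) ^ d := Nat.pow_le_pow_left (by nlinarith) d
      _ = m ^ (2 * d) := by ring
      _ ≤ m ^ (2 * d + 3 ^ d) := Nat.pow_le_pow_right (by omega) (Nat.le_add_right _ _)
      _ ≤ _ := Nat.le_add_right _ _

end Pool.Agent.H181R3.VP
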